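import Pool.Agent.H82.NTC.Stmts

/-!
# Board `ntc`, row XAR
-/

set_option autoImplicit false

namespace Pool.NTC

open Pool.NET

theorem xar_cmp (S c d : ℤ) (hS : 0 < S) : c = d ∨ S * c + S ≤ S * d ∨ S * d + S ≤ S * c := by
  rcases lt_trichotomy c d with h | h | h
  · right; left; nlinarith
  · left; exact h
  · right; right; nlinarith

theorem xar_thm : XSA Ke.R := by
  intro p e g N h u hp hN uN v w hv hw h1 h2 h3 h4
  obtain ⟨q0, gq, gW, We, eM, MS⟩ := hp
  obtain ⟨⟨c, r⟩, k⟩ := w
  obtain ⟨a, b⟩ := v
  have hS : 0 < p.S := by linarith
  have hc := xar_cmp p.S c a hS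
  have hr := xar_cmp p.S r b hS
  cases k <;> simp only [lo, hi, nx2, fx, fy] at h1 h2
  case NW => exfalso; rcases hc with rfl | hc | hc <;> linarith
  case SE => exfalso; rcases hc with rfl | hc | hc <;> linarith
  case T => exfalso; rcases hc with rfl | hc | hc <;> linarith
  case B => exfalso; rcases hc with rfl | hc | hc <;> linarith
  case L => exfalso; rcases hc with rfl | hc | hc <;> linarith
  case J3 => exfalso; rcases hc with rfl | hc | hc <;> linarith
  case J4 => exfalso; rcases hc with rfl | hc | hc <;> linarith
  case R =>
    simp only [jl, jh, fy] at h3 h4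
    rcases hc with rfl | hc | hc
    · rcases hr with rfl | hr | hr
      · left; rfl
      · exfalso; linarith
      · exfalso; linarith
    · exfalso; linarith
    · exfalso; linarith
  case J1 =>
    simp only [jl, jh, fy] at h3 h4
    rcases hc with rfl | hc | hc
    · rcases hr with rfl | hr | hr
      · right; simp only [nx2]
      · exfalso; linarith
      · exfalso; linarith
    · exfalso; linarith
    · exfalso; linarith
  case J2 =>
    simp only [jl, jh, fy] at h3 h4
    exfalso
    rcases hr with rfl | hr | hr <;> linarith

end Pool.NTC
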